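import Pool.Agent.Q279.QS.Theta

/-!
# Signed part sums over partitions without repeated odd parts
-/

set_option autoImplicit false

namespace Q279.QS

open PowerSeries Filter Topology
open scoped PowerSeries.WithPiTopology

/-- the dual numbers -/
abbrev D : Type := TrivSqZeroExt ℤ ℤ

/-- `a + b ε` -/
def du (a b : ℤ) : D := (a, b)

@[simp] theorem du_fst (a b : ℤ) : (du a b).fst = a := rfl
@[simp] theorem du_snd (a b : ℤ) : (du a b).snd = b := rfl

theorem du_mul (a b c d : ℤ) : du a b * du c d = du (a * c) (a * d + b * c) := by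
  ext
  · simp
  · simp [mul_comm]

theorem du_one : du 1 0 = 1 := rfl

theorem du_pow (k : ℤ) (n : ℕ) : du 1 k ^ n = du 1 (n * k) := by
  induction n with
  | zero => simp [du_one]
  | succ n ih =>
    rw [pow_succ, ih, du_mul]
    push_cast
    congr 1 <;> ring

/-- `F ↦ ∑ (1 + k n ε) F_n X^n` -/
noncomputable def dl (k : ℤ) : ℤ⟦X⟧ →+* D⟦X⟧ :=
  (rescale (du 1 k)).comp (PowerSeries.map (TrivSqZeroExt.inlHom ℤ ℤ))

theorem coeff_dl (k : ℤ) (F : ℤ⟦X⟧) (n : ℕ) :
    coeff n (dl k F) = du (coeff n F) (k * n * coeff n F) := by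
  unfold dl
  rw [RingHom.comp_apply, coeff_rescale, du_pow, coeff_map]
  have : (TrivSqZeroExt.inlHom ℤ ℤ) (coeff n F) = du (coeff n F) 0 := rfl
  rw [this, du_mul]
  congr 1 <;> ring

theorem continuous_dl (k : ℤ) : Continuous (dl k) := by
  refine continuous_iff_continuousAt.2 fun f => ?_
  refine (WithPiTopology.tendsto_iff_coeff_tendsto D _ _ _).2 fun d => ?_
  simp_rw [coeff_dl]
  have h : Continuous fun a : ℤ => du a (k * d * a) := continuous_of_discreteTopology
  exact (h.comp (WithPiTopology.continuous_coeff ℤ d)).tendsto f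

theorem dl_tprod (k : ℤ) {u : ℕ → ℤ⟦X⟧} (hu : Multipliable u) :
    dl k (∏' i, u i) = ∏' i, dl k (u i) := hu.map_tprod (dl k) (continuous_dl k)

theorem dl_X_pow (k : ℤ) (m : ℕ) : dl k (X ^ m) = du 1 (k * m) • X ^ m := by
  ext n
  · rw [coeff_dl, coeff_smul, coeff_X_pow, coeff_X_pow]
    split_ifs with h <;> simp [h]
  · rw [coeff_dl, coeff_smul, coeff_X_pow, coeff_X_pow]
    split_ifs with h <;> simp [h]

/-- the weight character -/
noncomputable def wf (i c : ℕ) : D :=
  if Odd i then (if c = 1 then du 1 i else 0) else du 1 (-(i * c : ℤ))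

/-- even part of the product, over `ℤ` -/
noncomputable def ev (i : ℕ) : ℤ⟦X⟧ := if Odd (i + 1) then 1 else 1 - X ^ (i + 1)

/-- odd part of the product, over `ℤ` -/
noncomputable def od (i : ℕ) : ℤ⟦X⟧ := if Odd (i + 1) then 1 + X ^ (i + 1) else 1

theorem mult_ev : Multipliable ev := by
  refine multipliable_of_dvd fun i => ?_
  unfold ev
  split_ifs
  · simp
  · exact ⟨-1, by ring⟩

theorem mult_od : Multipliable od := by
  refine multipliable_of_dvd fun i => ?_
  unfold od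
  split_ifs
  · exact ⟨1, by ring⟩
  · simp

theorem tprod_ev : ∏' i, ev i = eul 2 := by
  have h0 : ∀ i, ev (2 * i) = 1 := fun i => by
    unfold ev; rw [if_pos ⟨i, rfl⟩]
  have h1 : ∀ i, ev (2 * i + 1) = 1 - X ^ (2 * (i + 1)) := fun i => by
    unfold ev
    rw [if_neg (by rintro ⟨m, hm⟩; omega)]
    congr 2
  rw [tprod_even_odd mult_ev]
  · simp only [h0, h1, tprod_one, one_mul]
    rfl
  · simp only [h0]; exact multipliable_one
  · simp only [h1]; exact mult_eul 2 (by norm_num)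

theorem tprod_od : ∏' i, od i = oddP (-1) := by
  have h0 : ∀ i, od (2 * i) = 1 - C (-1) * X ^ (1 + 2 * i) := fun i => by
    unfold od; rw [if_pos ⟨i, rfl⟩, add_comm 1 (2 * i)]; simp
  have h1 : ∀ i, od (2 * i + 1) = 1 := fun i => by
    unfold od
    rw [if_neg (by rintro ⟨m, hm⟩; omega)]
  rw [tprod_even_odd mult_od]
  · simp only [h0, h1, tprod_one, mul_one]
    rfl
  · simp only [h0]; exact mult_aux (-1) 1 2 le_rfl (by norm_num)
  · simp only [h1]; exact multipliable_one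

theorem factor (i : ℕ) :
    (1 + ∑' j, wf (i + 1) (j + 1) • (X : D⟦X⟧) ^ ((i + 1) * (j + 1))) * dl (-1) (ev i) =
      dl 1 (od i) := by
  unfold ev od
  split_ifs with h
  · rw [map_one, mul_one, map_add, map_one, dl_X_pow, one_mul, tsum_eq_single 0]
    · unfold wf
      rw [if_pos h, if_pos rfl]
      simp
    · intro j hj
      unfold wf
      rw [if_pos h, if_neg (by omega), zero_smul]
  · rw [map_one, map_sub, map_one, dl_X_pow]
    have h1 : ∀ j, wf (i + 1) (j + 1) • (X : D⟦X⟧) ^ ((i + 1) * (j + 1)) =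
        (du 1 (-1 * (i + 1 : ℕ)) • X ^ (i + 1)) ^ (j + 1) := by
      intro j
      unfold wf
      rw [if_neg h, smul_pow, ← pow_mul, du_pow]
      congr 2
      push_cast
      ring
    simp only [h1]
    set y : D⟦X⟧ := du 1 (-1 * (i + 1 : ℕ)) • X ^ (i + 1) with hy
    have hs : Summable fun j => y ^ j := by
      have hs1 := Nat.Partition.summable_genFun_term wf i
      simp only [h1] at hs1
      exact (summable_nat_add_iff 1).1 hs1
    have h2 : 1 + ∑' j, y ^ (j + 1) = ∑' j, y ^ j := by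
      rw [hs.tsum_eq_zero_add, pow_zero]
    rw [h2]
    exact hs.tsum_pow_mul_one_sub

theorem gen_eq : Nat.Partition.genFun wf * dl (-1) (eul 2) = dl 1 (oddP (-1)) := by
  rw [← tprod_ev, ← tprod_od, dl_tprod _ mult_ev, dl_tprod _ mult_od,
    Nat.Partition.genFun_eq_tprod]
  have h := (Nat.Partition.multipliable_genFun wf).tprod_mul
      (mult_ev.map (dl (-1)) (continuous_dl _))
  exact h.symm.trans (tprod_congr factor)

/-- the `1`-part of the generating function -/
noncomputable def gP : ℤ⟦X⟧ := mk fun n => (coeff n (Nat.Partition.genFun wf)).fst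

/-- the `ε`-part of the generating function -/
noncomputable def gS : ℤ⟦X⟧ := mk fun n => (coeff n (Nat.Partition.genFun wf)).snd

theorem gP_mul : gP * eul 2 = oddP (-1) := by
  ext n
  have h := congrArg (fun F => (coeff n F).fst) gen_eq
  simp only [coeff_dl, du_fst, coeff_mul, TrivSqZeroExt.fst_sum, TrivSqZeroExt.fst_mul] at h
  rw [coeff_mul, ← h]
  refine Finset.sum_congr rfl fun p _ => ?_
  rw [gP, coeff_mk]

theorem gS_mul : gS * eul 2 - gP * th (eul 2) = th (oddP (-1)) := by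
  ext n
  have h := congrArg (fun F => (coeff n F).snd) gen_eq
  simp only [coeff_dl, du_snd, du_fst, coeff_mul, TrivSqZeroExt.snd_sum,
    TrivSqZeroExt.snd_mul] at h
  rw [coeff_th, map_sub, coeff_mul, coeff_mul, ← Finset.sum_sub_distrib]
  rw [one_mul] at h
  rw [← h]
  refine Finset.sum_congr rfl fun p _ => ?_
  rw [gP, gS, coeff_mk, coeff_mk, coeff_th]
  simp only [smul_eq_mul, MulOpposite.smul_eq_mul_unop, MulOpposite.unop_op]
  ring

theorem gS_eq : gS * eul 2 ^ 2 = th (oddP (-1) * eul 2) := by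
  have h1 := gP_mul
  have h2 := gS_mul
  rw [th_mul, ← h2, ← h1]
  ring

theorem ng_gS_eq : ng gS * eul 2 ^ 2 = th (eul 1) := by
  have h := congrArg ng gS_eq
  rw [map_mul, map_pow, ng_eul_two, ng_th, map_mul, ng_eul_two, ng_oddP, ← eul_one_eq] at h
  exact h

theorem gS_seven : 3 * ng gS * eul 1 ^ 7 = th (eul 1 ^ 3) * TS (te 2 1) (fun n : ℤ => 6 * n + 1) := by
  have h1 := ng_gS_eq
  have h2 := quint
  have h3 : th (eul 1 ^ 3) = 3 * eul 1 ^ 2 * th (eul 1) := by
    have := th_pow (eul 1) 2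
    simpa using this
  have h4 : eul 2 ^ 2 ≠ 0 := pow_ne_zero _ (eul_ne_zero (by norm_num))
  refine mul_right_cancel₀ h4 ?_
  rw [h3, ← h1]
  linear_combination (3 * ng gS * eul 1 ^ 2 * eul 2 ^ 2) * h2

theorem key7 : ∀ i n N : ZMod 7, 2 * N = i * (i + 1) + 3 * n ^ 2 + n → (N = 0 ∨ N = 5) →
    (2 * i + 1) * (i * (i + 1)) * (6 * n + 1) = 0 := by decide

theorem coeff_prod_dvd (N : ℕ) (hN : N % 7 = 0 ∨ N % 7 = 5) :
    (7 : ℤ) ∣ coeff N (th (eul 1 ^ 3) * TS (te 2 1) (fun n : ℤ => 6 * n + 1)) := by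
  have h7 : ∀ n : ℕ, (n : ℤ) ≤ (((n + 1).choose 2 : ℕ) : ℤ) := fun n => by
    exact_mod_cast Pool.Agent.Y246.Z700.k_le_tri n
  have hFF := FF_nat h7
  have h0 : ∀ n : ℕ, (0 : ℤ) ≤ (((n + 1).choose 2 : ℕ) : ℤ) := fun n => by positivity
  have hte : FF (te 2 1) := FF_te (by norm_num) le_rfl
  rw [jacobi, th_TS hFF, TS_mul hFF hte h0 (te_nonneg 2 1)]
  refine coeff_TS_dvd (hFF.add hte h0 (te_nonneg 2 1)) _ _ _ ?_
  rintro ⟨i, n⟩ h
  simp only at h
  have e1 := two_c2 (i + 1)
  have e2 := two_tri n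
  unfold te at h
  have e3 : (2 : ℤ) * N = i * (i + 1) + 3 * n ^ 2 + n := by
    push_cast at h e1
    linarith
  have e4 := congrArg (Int.cast (R := ZMod 7)) e3
  push_cast at e4
  have hN' : ((N : ZMod 7) = 0 ∨ (N : ZMod 7) = 5) := by
    rcases hN with h | h
    · left
      rw [← Nat.mod_add_div N 7, h]
      push_cast
      rw [show (7 : ZMod 7) = 0 from rfl]; ring
    · right
      rw [← Nat.mod_add_div N 7, h]
      push_cast
      rw [show (7 : ZMod 7) = 0 from rfl]; ring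
  have e5 := key7 _ _ _ e4 hN'
  have e6 : ((((2 * (i : ℤ) + 1) * (i * (i + 1)) * (6 * n + 1) : ℤ)) : ZMod 7) = 0 := by
    push_cast
    exact e5
  rw [ZMod.intCast_zmod_eq_zero_iff_dvd] at e6
  have e7 : (2 : ℤ) * ((((i + 1).choose 2 : ℕ) : ℤ) * ((-1) ^ i * (2 * (i : ℤ) + 1)) * (6 * n + 1)) =
      (-1) ^ i * ((2 * (i : ℤ) + 1) * (i * (i + 1)) * (6 * n + 1)) := by
    push_cast at e1
    linear_combination ((-1) ^ i * (2 * (i : ℤ) + 1)) * (6 * n + 1) * e1
  have e8 : ((7 : ℕ) : ℤ) ∣ 2 * ((((i + 1).choose 2 : ℕ) : ℤ) * ((-1) ^ i * (2 * (i : ℤ) + 1)) *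
      (6 * n + 1)) := by
    rw [e7]
    exact Dvd.dvd.mul_left e6 _
  exact Int.Prime.dvd_mul' (by norm_num : Nat.Prime 7) e8 |>.resolve_left (by norm_num)

theorem gS_dvd (N : ℕ) (hN : N % 7 = 0 ∨ N % 7 = 5) : (7 : ℤ) ∣ coeff N gS := by
  haveI : Fact (Nat.Prime 7) := ⟨by norm_num⟩
  have h1 : red 7 (3 * ng gS) * expand 7 (by norm_num) (red 7 (eul 1)) =
      red 7 (th (eul 1 ^ 3) * TS (te 2 1) (fun n : ℤ => 6 * n + 1)) := by
    rw [← gS_seven, map_mul (red 7) (3 * ng gS), red_pow]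
  have h2 : constantCoeff (red 7 (eul 1)) = 1 := by
    rw [← coeff_zero_eq_constantCoeff_apply, coeff_map, coeff_zero_eq_constantCoeff_apply,
      constCoeff_eul le_rfl, map_one]
  have h3 : coeff N (red 7 (3 * ng gS)) = 0 := by
    refine deconv (by norm_num) h2 h1 (N % 7) ?_ N rfl
    intro n hn
    rw [coeff_red_eq_zero]
    exact coeff_prod_dvd n (by omega)
  rw [coeff_red_eq_zero] at h3
  have h4 : coeff N (3 * ng gS) = 3 * ((-1) ^ N * coeff N gS) := by
    rw [show (3 : ℤ⟦X⟧) = C 3 from (map_ofNat C 3).symm, coeff_C_mul, coeff_rescale]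
  rw [h4] at h3
  have h5 := (Int.Prime.dvd_mul' (by norm_num : Nat.Prime 7) h3).resolve_left (by norm_num)
  rcases Nat.even_or_odd N with h | h
  · rw [h.neg_one_pow, one_mul] at h5
    exact h5
  · rw [h.neg_one_pow, neg_one_mul] at h5
    exact (dvd_neg.1 h5)

end Q279.QS
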